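import Pool.Agent.Lib.SmL.G.CTDefs

/-!
# SMITH-L block G, module Kum (G1): the local Kummer groups
-/

set_option autoImplicit false

namespace Pool.Agent.SmL

variable {l : ℕ} {A G V V1 Pl : Type*} [CommRing A] [Group G] [AddCommGroup V] [Module A V]
  [DistribMulAction G V] [AddCommGroup V1] [Module (ZMod l) V1]

namespace Sys

variable {S : Sys l A G V V1 Pl}

/-- The local Kummer group as a subgroup. -/
noncomputable def W (S : Sys l A G V V1 Pl) (chi : G → ZMod l) (v : Pl) : AddSubgroup (V1 × V1) where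
  carrier := S.Wl chi v
  zero_mem' := ⟨0, fun s _ => by rw [dl_zero, smul_zero], by simp [dl_zero], by simp [dl_zero]⟩
  add_mem' := by
    rintro x y ⟨Q, hQ, h1, h2⟩ ⟨R, hR, h3, h4⟩
    refine ⟨Q + R, fun s hs => ?_, ?_, ?_⟩
    · rw [dl_add, smul_add, hQ s hs, hR s hs, add_zero]
    · rw [dl_add, h1, h3, Prod.fst_add, map_add]
    · rw [dl_add, h2, h4, Prod.snd_add, map_add]
  neg_mem' := by
    rintro x ⟨Q, hQ, h1, h2⟩
    refine ⟨-Q, fun s hs => ?_, ?_, ?_⟩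
    · rw [dl_neg, smul_neg, hQ s hs, neg_zero]
    · rw [dl_neg, h1, Prod.fst_neg, map_neg]
    · rw [dl_neg, h2, Prod.snd_neg, map_neg]

theorem mem_W {chi : G → ZMod l} {v : Pl} {x : V1 × V1} : x ∈ S.W chi v ↔ x ∈ S.Wl chi v := Iff.rfl

/-- The points invariant under `D v`. -/
def Mv (S : Sys l A G V V1 Pl) (chi : G → ZMod l) (v : Pl) : AddSubgroup V where
  carrier := {Q | ∀ s ∈ S.D v, S.dl chi Q s = 0}
  zero_mem' := fun s _ => dl_zero S chi s
  add_mem' := by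
    intro Q R hQ hR s hs
    rw [dl_add, hQ s hs, hR s hs, add_zero]
  neg_mem' := by
    intro Q hQ s hs
    rw [dl_neg, hQ s hs, neg_zero]

/-- The points whose coboundary on `D v` is killed by `lam`. -/
def Pv (S : Sys l A G V V1 Pl) (chi : G → ZMod l) (v : Pl) : AddSubgroup V where
  carrier := {Q | ∀ s ∈ S.D v, S.lam • S.dl chi Q s = 0}
  zero_mem' := fun s _ => by rw [dl_zero, smul_zero]
  add_mem' := by
    intro Q R hQ hR s hs
    rw [dl_add, smul_add, hQ s hs, hR s hs, add_zero]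
  neg_mem' := by
    intro Q hQ s hs
    rw [dl_neg, smul_neg, hQ s hs, neg_zero]

theorem mem_Mv {chi : G → ZMod l} {v : Pl} {Q : V} :
    Q ∈ S.Mv chi v ↔ ∀ s ∈ S.D v, S.dl chi Q s = 0 := Iff.rfl

theorem mem_Pv {chi : G → ZMod l} {v : Pl} {Q : V} :
    Q ∈ S.Pv chi v ↔ ∀ s ∈ S.D v, S.lam • S.dl chi Q s = 0 := Iff.rfl

/-- `Q ↦` the pair of values of its coboundary. -/
noncomputable def pvHom (h : S.Ok) (chi : G → ZMod l) (v : Pl) : S.Pv chi v →+ V1 × V1 where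
  toFun Q := (S.un (S.dl chi Q.1 (S.sg v)), S.un (S.dl chi Q.1 (S.phi v)))
  map_zero' := by
    simp only [ZeroMemClass.coe_zero, dl_zero, un_zero h]
    rfl
  map_add' := by
    rintro ⟨Q, hQ⟩ ⟨R, hR⟩
    have hs := h.sg_mem v
    have hp := h.phi_mem v
    simp only [AddMemClass.mk_add_mk, dl_add, Prod.mk_add_mk]
    rw [un_add h (hQ _ hs) (hR _ hs), un_add h (hQ _ hp) (hR _ hp)]

theorem pvHom_range (h : S.Ok) (chi : G → ZMod l) (v : Pl) :
    (pvHom h chi v).range = S.W chi v := by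
  ext x
  rw [AddMonoidHom.mem_range]
  constructor
  · rintro ⟨Q, rfl⟩
    exact ⟨Q.1, Q.2, (iota_un h (Q.2 _ (h.sg_mem v))).symm, (iota_un h (Q.2 _ (h.phi_mem v))).symm⟩
  · rintro ⟨Q, hQ, h1, h2⟩
    refine ⟨⟨Q, hQ⟩, ?_⟩
    refine Prod.ext ?_ ?_
    · change S.un (S.dl chi Q (S.sg v)) = x.1
      rw [h1, un_iota h]
    · change S.un (S.dl chi Q (S.phi v)) = x.2
      rw [h2, un_iota h]

theorem pvHom_ker (h : S.Ok) {chi : G → ZMod l} (hchi : S.HomG chi) (v : Pl) (Q : S.Pv chi v) :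
    Q ∈ (pvHom h chi v).ker ↔ Q.1 ∈ S.Mv chi v := by
  rw [AddMonoidHom.mem_ker, mem_Mv]
  constructor
  · intro hQ
    refine cocD_zero h hchi v (dl_cocD h hchi Q.1 v) ?_ ?_
    · have := congrArg Prod.fst hQ
      change S.un (S.dl chi Q.1 (S.sg v)) = 0 at this
      rwa [un_eq_iff h (Q.2 _ (h.sg_mem v)), map_zero] at this
    · have := congrArg Prod.snd hQ
      change S.un (S.dl chi Q.1 (S.phi v)) = 0 at this
      rwa [un_eq_iff h (Q.2 _ (h.phi_mem v)), map_zero] at this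
  · intro hQ
    refine Prod.ext ?_ ?_
    · change S.un (S.dl chi Q.1 (S.sg v)) = 0
      rw [hQ _ (h.sg_mem v), un_zero h]
    · change S.un (S.dl chi Q.1 (S.phi v)) = 0
      rw [hQ _ (h.phi_mem v), un_zero h]

/-- `#(A/B) * #B = #A` in the form needed here. -/
theorem card_hom {A B : Type*} [AddCommGroup A] [AddCommGroup B] (f : A →+ B) :
    Nat.card f.ker * Nat.card f.range = Nat.card A := by
  rw [← AddSubgroup.index_ker f, AddSubgroup.card_mul_index]

/-- G1: the local Kummer group has `#V1` elements. -/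
theorem card_W (h : S.Ok) {chi : G → ZMod l} (hchi : S.HomG chi) (v : Pl) :
    Nat.card (S.W chi v) = Nat.card V1 := by
  have hfin : Finite (S.Mv chi v) := h.fin_inv chi hchi v
  have hle : S.Mv chi v ≤ S.Pv chi v := fun Q hQ s hs => by rw [hQ s hs, smul_zero]
  -- the first count
  have e1 : Nat.card (S.Mv chi v) * Nat.card (S.W chi v) = Nat.card (S.Pv chi v) := by
    rw [← card_hom (pvHom h chi v), pvHom_range]
    congr 1
    refine Nat.card_congr ⟨fun Q => ⟨⟨Q.1, hle Q.2⟩, (pvHom_ker h hchi v _).mpr Q.2⟩,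
      fun Q => ⟨Q.1.1, (pvHom_ker h hchi v _).mp Q.2⟩, fun _ => rfl, fun _ => rfl⟩
  -- the second count
  let g : S.Pv chi v →+ S.Mv chi v :=
    { toFun := fun Q => ⟨S.lam • Q.1, fun s hs => by rw [dl_smul h]; exact Q.2 s hs⟩
      map_zero' := by ext; simp
      map_add' := by intro Q R; ext; simp }
  have hg : Function.Surjective g := by
    rintro ⟨Q, hQ⟩
    obtain ⟨R, hR⟩ := h.half Q
    refine ⟨⟨R, fun s hs => ?_⟩, Subtype.ext hR⟩
    rw [← dl_smul h, hR, hQ s hs]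
  have e2 : Nat.card V1 * Nat.card (S.Mv chi v) = Nat.card (S.Pv chi v) := by
    rw [← card_hom g, AddMonoidHom.range_eq_top.mpr hg, AddSubgroup.card_top]
    congr 1
    refine Nat.card_congr (Equiv.ofBijective (fun w => ⟨⟨S.iota w, fun s _ => ?_⟩, ?_⟩) ⟨?_, ?_⟩)
    · exact lam_dl_iota h chi s w
    · rw [AddMonoidHom.mem_ker]
      exact Subtype.ext (h.lam_iota w)
    · intro w w' hw
      exact h.iota_inj (congrArg (fun x => x.1.1) hw)
    · rintro ⟨⟨Q, hQ⟩, hQ2⟩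
      obtain ⟨w, hw⟩ := h.iota_range Q (congrArg Subtype.val (AddMonoidHom.mem_ker.mp hQ2))
      exact ⟨w, Subtype.ext (Subtype.ext hw)⟩
  have hpos : 0 < Nat.card (S.Mv chi v) := Nat.card_pos
  have : Nat.card (S.Mv chi v) * Nat.card (S.W chi v) = Nat.card (S.Mv chi v) * Nat.card V1 := by
    rw [e1, ← e2]; ring
  exact Nat.eq_of_mul_eq_mul_left hpos this

/-- The unramified pairs. -/
def Ur {V1 : Type*} [AddCommGroup V1] : AddSubgroup (V1 × V1) := (AddMonoidHom.fst V1 V1).ker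

theorem mem_Ur {x : V1 × V1} : x ∈ Ur ↔ x.1 = 0 := Iff.rfl

theorem card_Ur : Nat.card (Ur : AddSubgroup (V1 × V1)) = Nat.card V1 := by
  exact Nat.card_congr ⟨fun x => x.1.2, fun w => ⟨(0, w), rfl⟩,
    fun x => Subtype.ext (Prod.ext x.2.symm rfl), fun _ => rfl⟩

/-- At a good place where the twist is unramified the Kummer group is the unramified group. -/
theorem W_good (h : S.Ok) {chi : G → ZMod l} (hchi : S.HomG chi) {v : Pl} (hv : v ∈ S.good)
    (h0 : chi (S.sg v) = 0) : S.W chi v = Ur := by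
  have hle : S.W chi v ≤ Ur := by
    rintro x ⟨Q, hQ, h1, h2⟩
    rw [dl_sg_zero h hv h0] at h1
    exact (iota_eq_zero h).mp h1.symm
  have := h.fin1
  apply SetLike.coe_injective
  refine Set.eq_of_subset_of_ncard_le hle ?_ (Set.toFinite _)
  rw [← Nat.card_coe_set_eq, ← Nat.card_coe_set_eq]
  have e1 : Nat.card (S.W chi v : Set (V1 × V1)) = Nat.card V1 := card_W h hchi v
  have e2 : Nat.card ((Ur : AddSubgroup (V1 × V1)) : Set (V1 × V1)) = Nat.card V1 := card_Ur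
  rw [e1, e2]

theorem mem_Wl_good (h : S.Ok) {chi : G → ZMod l} (hchi : S.HomG chi) {v : Pl} (hv : v ∈ S.good)
    (h0 : chi (S.sg v) = 0) (x : V1 × V1) : x ∈ S.Wl chi v ↔ x.1 = 0 := by
  rw [← mem_W, W_good h hchi hv h0, mem_Ur]

theorem exc_fin (h : S.Ok) {chi : G → ZMod l} (hchi : S.HomG chi) :
    {v | ¬ ∀ x : V1 × V1, x ∈ S.W chi v ↔ x.1 = 0}.Finite := by
  refine (bad_fin h hchi).subset fun v hv hg => hv fun x => ?_
  exact mem_Wl_good h hchi hg.1 hg.2 x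

/-- At a good place: if `lam z = iota w` then `dl z (sg v) = - iota (chi (sg v) w)`. -/
theorem dl_sg_of_lam (h : S.Ok) {chi : G → ZMod l} {v : Pl} (hv : v ∈ S.good) {z : V} {w : V1}
    (hz : S.lam • z = S.iota w) : S.dl chi z (S.sg v) = S.iota (-(chi (S.sg v) • w)) := by
  rw [dl_sg h hv, smul_comm, hz, uu_iota h, map_neg]

/-- At a good split place where the twist is ramified, the Kummer group is the set of the pairs of
values of the coboundaries of the `z` with `lam^2 z = 0`. -/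
theorem mem_Wl_ram (h : S.Ok) {chi : G → ZMod l} {v : Pl} (hv : v ∈ S.good)
    (hs : S.ac (S.phi v) = 1)
    (h1 : chi (S.sg v) ≠ 0) (x : V1 × V1) {z : V} (hz : S.dl chi z (S.sg v) = S.iota x.1) :
    x ∈ S.Wl chi v ↔ S.dl chi z (S.phi v) = S.iota x.2 := by
  constructor
  · rintro ⟨Q, hQ, h2, h3⟩
    rw [← h3]
    exact fill_eq h hv h1 (hz.trans h2.symm) hs
  · intro h2
    -- `lam z` is killed by `lam`
    have hlz : S.lam • (S.lam • z) = 0 := by
      have h3 : S.uu (chi (S.sg v)) • (S.lam • (S.lam • z)) = 0 := by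
        have h4 := dl_sg h (chi := chi) hv z
        rw [hz] at h4
        have h5 : S.lam • S.uu (chi (S.sg v)) • z = -S.iota x.1 := by rw [h4, neg_neg]
        have h6 : S.uu (chi (S.sg v)) • (S.lam • (S.lam • z)) =
            S.lam • (S.lam • S.uu (chi (S.sg v)) • z) := by
          simp only [smul_smul]
          congr 1
          ring
        rw [h6, h5, smul_neg, h.lam_iota, neg_zero]
      exact uu_inj h h1 h3
    refine ⟨z, fun s hsD => ?_, hz, h2⟩
    rw [← dl_smul h]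
    exact dl_of_two_split h chi (ac_D h hv hs s hsD) hlz

/-- The form with `lam z = iota w`, `w = - x.1 / chi (sg v)`. -/
theorem mem_Wl_ram' (h : S.Ok) {chi : G → ZMod l} {v : Pl} (hv : v ∈ S.good)
    (hs : S.ac (S.phi v) = 1)
    (h1 : chi (S.sg v) ≠ 0) (x : V1 × V1) {z : V}
    (hz : S.lam • z = S.iota (-((chi (S.sg v))⁻¹ • x.1))) :
    x ∈ S.Wl chi v ↔ S.dl chi z (S.phi v) = S.iota x.2 := by
  have : Fact l.Prime := ⟨h.prime⟩
  refine mem_Wl_ram h hv hs h1 x ?_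
  rw [dl_sg_of_lam h hv hz, smul_neg, neg_neg, smul_smul, mul_inv_cancel₀ h1, one_smul]

/-- A Kummer pair at a good split ramified place is determined by its first component. -/
theorem Wl_ram_ext (h : S.Ok) {chi : G → ZMod l} {v : Pl} (hv : v ∈ S.good)
    (hs : S.ac (S.phi v) = 1)
    (h1 : chi (S.sg v) ≠ 0) {x y : V1 × V1} (hx : x ∈ S.Wl chi v) (hy : y ∈ S.Wl chi v)
    (he : x.1 = y.1) : x = y := by
  obtain ⟨Q, hQ, h2, h3⟩ := hx
  obtain ⟨R, hR, h4, h5⟩ := hy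
  refine Prod.ext he (h.iota_inj ?_)
  rw [← h3, ← h5]
  exact fill_eq h hv h1 (by rw [h2, h4, he]) hs

/-- A `V[lam]`-valued twisted cocycle on `D v` is a cocycle with values in `V1`. -/
theorem cp_of_cocD (h : S.Ok) {chi : G → ZMod l} {v : Pl} {c : G → V} (hc : S.CocD chi v c)
    (h2 : ∀ s ∈ S.D v, S.lam • c s = 0) :
    (S.un (c (S.sg v)), S.un (c (S.phi v))) ∈ S.CP v := by
  refine ⟨fun s => S.un (c s), ⟨hc.tf.comp S.un, fun s hs t ht => ?_⟩, rfl⟩
  have e := hc.coc s hs t ht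
  change S.un (c (s * t)) = S.un (c s) + S.ac s (S.un (c t))
  rw [e, un_add h (h2 s hs) (two_tw h chi s (h2 t ht)), un_tw h chi s (h2 t ht)]

/-- The Kummer group consists of pairs of values of cocycles. -/
theorem Wl_sub_CP (h : S.Ok) {chi : G → ZMod l} (hchi : S.HomG chi) (v : Pl) :
    S.Wl chi v ⊆ S.CP v := by
  rintro x ⟨Q, hQ, h1, h2⟩
  have := cp_of_cocD h (dl_cocD h hchi Q v) hQ
  rwa [h1, h2, un_iota h, un_iota h] at this

/-- The Kummer group contains the coboundaries. -/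
theorem cob_mem_Wl (h : S.Ok) (chi : G → ZMod l) (v : Pl) (z : V1) : S.cob v z ∈ S.Wl chi v :=
  ⟨S.iota z, fun s _ => lam_dl_iota h chi s z, dl_iota h chi _ z, dl_iota h chi _ z⟩

/-- The pairs of values of global cocycles. -/
theorem loc_mem_CP {b : G → V1} (hb : S.CocG b) (v : Pl) : S.loc v b ∈ S.CP v :=
  ⟨b, ⟨hb.1.on _, fun s _ t _ => hb.2 s t⟩, rfl⟩

theorem HomG_zero (h : S.Ok) : S.HomG (fun _ => (0 : ZMod l)) :=
  ⟨TF_const h 0, fun _ _ => (add_zero 0).symm⟩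

/-- Every unramified pair is the pair of a cocycle. -/
theorem CP_of_unr (h : S.Ok) {v : Pl} (hv : v ∈ S.good) {x : V1 × V1} (hx : x.1 = 0) :
    x ∈ S.CP v :=
  Wl_sub_CP h (HomG_zero h) v ((mem_Wl_good h (HomG_zero h) hv rfl x).2 hx)

/-- The pairing of two unramified pairs. -/
theorem sy_unr_zero (h : S.Ok) {v : Pl} (hv : v ∈ S.good) {x y : V1 × V1} (hx : x.1 = 0)
    (hy : y.1 = 0) : S.sy v x y = 0 := by
  rw [h.sy_unr v hv x (CP_of_unr h hv hx) y (CP_of_unr h hv hy) hx, hy, map_zero]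

/-- At a good place the value of a cocycle at the tame generator is fixed by Frobenius. -/
theorem cp_fix (h : S.Ok) {v : Pl} (hv : v ∈ S.good) {x : V1 × V1} (hx : x ∈ S.CP v) :
    S.ac (S.phi v) x.1 = x.1 := by
  obtain ⟨c, ⟨⟨N, hN, htf⟩, hc⟩, rfl⟩ := hx
  have hsg := h.sg_mem v
  have hph := h.phi_mem v
  have hone : c 1 = 0 := by
    have := hc 1 (one_mem _) 1 (one_mem _)
    rw [one_mul, map_one] at this
    exact left_eq_add.mp this
  obtain ⟨q, hq, hN1⟩ := h.frob v N hN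
  have hpow : ∀ n : ℕ, c (S.sg v ^ n) = n • c (S.sg v) := by
    intro n
    induction n with
    | zero => rw [pow_zero, hone, zero_smul]
    | succ n ih =>
      rw [pow_succ', hc _ hsg _ ((S.D v).pow_mem hsg n), ih, ac_sg h hv, succ_nsmul']
      rfl
  have hq2 : q • c (S.sg v) = c (S.sg v) := by
    rw [← Nat.cast_smul_eq_nsmul (ZMod l), hq, one_smul]
  have h1 : c (S.phi v * S.sg v * (S.phi v)⁻¹) = c (S.sg v) := by
    have hm : S.phi v * S.sg v * (S.phi v)⁻¹ ∈ S.D v :=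
      (S.D v).mul_mem ((S.D v).mul_mem hph hsg) ((S.D v).inv_mem hph)
    have h2 := htf (S.sg v ^ q) ((S.D v).pow_mem hsg q) _ hN1
      ((S.D v).mul_mem ((S.D v).inv_mem ((S.D v).pow_mem hsg q)) hm)
    rw [mul_inv_cancel_left] at h2
    rw [h2, hpow, hq2]
  have h3 : c (S.phi v * S.sg v * (S.phi v)⁻¹) = S.ac (S.phi v) (c (S.sg v)) := by
    have h4 : c (S.phi v * (S.phi v)⁻¹) = c (S.phi v) + S.ac (S.phi v) (c (S.phi v)⁻¹) :=
      hc _ hph _ ((S.D v).inv_mem hph)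
    rw [mul_inv_cancel, hone] at h4
    rw [hc _ ((S.D v).mul_mem hph hsg) _ ((S.D v).inv_mem hph), hc _ hph _ hsg, map_mul,
      ac_sg h hv, mul_one]
    calc c (S.phi v) + S.ac (S.phi v) (c (S.sg v)) + S.ac (S.phi v) (c (S.phi v)⁻¹)
        = (c (S.phi v) + S.ac (S.phi v) (c (S.phi v)⁻¹)) + S.ac (S.phi v) (c (S.sg v)) := by abel
      _ = S.ac (S.phi v) (c (S.sg v)) := by rw [← h4, zero_add]
  change S.ac (S.phi v) (c (S.sg v)) = c (S.sg v)
  rw [← h3, h1]

theorem CP_add (h : S.Ok) {v : Pl} {x y : V1 × V1} (hx : x ∈ S.CP v) (hy : y ∈ S.CP v) :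
    x + y ∈ S.CP v := by
  obtain ⟨c, ⟨hc1, hc2⟩, rfl⟩ := hx
  obtain ⟨d, ⟨hd1, hd2⟩, rfl⟩ := hy
  refine ⟨fun s => c s + d s, ⟨TFOn.comp₂ h hc1 hd1 (fun a b => a + b), fun s hs t ht => ?_⟩, rfl⟩
  simp only [hc2 s hs t ht, hd2 s hs t ht, map_add]
  abel

theorem CP_smul {v : Pl} {x : V1 × V1} (hx : x ∈ S.CP v) (a : ZMod l) : a • x ∈ S.CP v := by
  obtain ⟨c, ⟨hc1, hc2⟩, rfl⟩ := hx
  refine ⟨fun s => a • c s, ⟨hc1.comp (fun b => a • b), fun s hs t ht => ?_⟩, rfl⟩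
  simp only [hc2 s hs t ht, map_smul, smul_add]

theorem CP_neg {v : Pl} {x : V1 × V1} (hx : x ∈ S.CP v) : -x ∈ S.CP v := by
  have := CP_smul hx (-1)
  rwa [neg_smul, one_smul] at this

theorem CP_sub (h : S.Ok) {v : Pl} {x y : V1 × V1} (hx : x ∈ S.CP v) (hy : y ∈ S.CP v) :
    x - y ∈ S.CP v := by
  rw [sub_eq_add_neg]
  exact CP_add h hx (CP_neg hy)

theorem CP_zero (h : S.Ok) (v : Pl) : (0 : V1 × V1) ∈ S.CP v :=
  ⟨fun _ => 0, ⟨(TF_const h 0).on _, fun _ _ _ _ => by rw [map_zero, add_zero]⟩, rfl⟩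

theorem cob_mem_CP (h : S.Ok) (v : Pl) (z : V1) : S.cob v z ∈ S.CP v :=
  Wl_sub_CP h (HomG_zero h) v (cob_mem_Wl h _ v z)

theorem sy_cob_left (h : S.Ok) (v : Pl) {x : V1 × V1} (hx : x ∈ S.CP v) (z : V1) :
    S.sy v (S.cob v z) x = 0 := by
  rw [h.sy_comm v _ (cob_mem_CP h v z) _ hx, h.sy_cob v x hx z, mul_zero, neg_zero]

/-- The local pairing at a good place when the second cocycle is unramified. -/
theorem sy_unr_right (h : S.Ok) {v : Pl} (hv : v ∈ S.good) {x y : V1 × V1} (hx : x ∈ S.CP v)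
    (hy : y ∈ S.CP v) (hy1 : y.1 = 0) : S.sy v x y = -S.e x.1 y.2 := by
  rw [h.sy_comm v x hx y hy, h.sy_unr v hv y hy x hx hy1, ← h.e_symm]

end Sys

end Pool.Agent.SmL
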