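import Pool.Agent.Lib.SmL.G.Crit

/-!
# SMITH-L block G, module TowerFacts: the Selmer cocycles of all levels form a tower
-/

set_option autoImplicit false

open Polynomial

namespace Pool.Agent.SmL

variable {l : ℕ} {A G V V1 Pl : Type*} [CommRing A] [Group G] [AddCommGroup V] [Module A V]
  [DistribMulAction G V] [AddCommGroup V1] [Module (ZMod l) V1]

namespace Sys

variable {S : Sys l A G V V1 Pl}

/-- All coboundaries `dl chi z`. -/
def Cob (S : Sys l A G V V1 Pl) (chi : G → ZMod l) : AddSubgroup (G → V) where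
  carrier := {Psi | ∃ z : V, Psi = S.dl chi z}
  zero_mem' := ⟨0, funext fun s => (dl_zero S chi s).symm⟩
  add_mem' := by
    rintro _ _ ⟨z, rfl⟩ ⟨y, rfl⟩
    exact ⟨z + y, funext fun s => (dl_add S chi z y s).symm⟩
  neg_mem' := by
    rintro _ ⟨z, rfl⟩
    exact ⟨-z, funext fun s => (dl_neg S chi z s).symm⟩

theorem mem_Cob {chi : G → ZMod l} {Psi : G → V} :
    Psi ∈ S.Cob chi ↔ ∃ z : V, Psi = S.dl chi z := Iff.rfl

/-- The pairing on functions with values in `V`. -/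
noncomputable def PV (S : Sys l A G V V1 Pl) (chi : G → ZMod l) (m b : G → V) : ZMod l :=
  S.CT chi m (fun s => S.un (b s))

theorem SelZ_zero (h : S.Ok) (chi : G → ZMod l) : S.SelZ h chi 0 = ⊥ := by
  rw [eq_bot_iff]
  intro Psi hP
  exact isSel_zero_iff (mem_SelZ.mp hP)

theorem SelZ_le_succ (h : S.Ok) (chi : G → ZMod l) (j : ℕ) : S.SelZ h chi j ≤ S.SelZ h chi (j + 1) :=
  fun _ hP => (mem_SelZ.mp hP).mono (Nat.le_succ j)

theorem SelZ_mono (h : S.Ok) (chi : G → ZMod l) {j k : ℕ} (hjk : j ≤ k) :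
    S.SelZ h chi j ≤ S.SelZ h chi k :=
  fun _ hP => (mem_SelZ.mp hP).mono hjk

theorem SelZ_of_pow (h : S.Ok) (chi : G → ZMod l) {j k : ℕ} {m : G → V} (hm : m ∈ S.SelZ h chi k)
    (h0 : S.lam ^ j • m = 0) : m ∈ S.SelZ h chi j :=
  (mem_SelZ.mp hm).of_lev fun s => congrFun h0 s

theorem SelZ_pow (h : S.Ok) (chi : G → ZMod l) {j : ℕ} {m : G → V} (hm : m ∈ S.SelZ h chi j) :
    S.lam ^ j • m = 0 := funext fun s => (mem_SelZ.mp hm).lev s

/-- `A` acts on the Selmer cocycles of level `j`. -/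
theorem IsSel.smulA (h : S.Ok) {chi : G → ZMod l} {j : ℕ} {Psi : G → V} (a : A)
    (hP : S.IsSel chi j Psi) : S.IsSel chi j (a • Psi) where
  tf := hP.tf.comp (fun x => a • x)
  coc := fun s t => by
    simp only [Pi.smul_apply, hP.coc s t, smul_add, tw_smul h]
  lev := fun s => by rw [Pi.smul_apply, smul_comm, hP.lev, smul_zero]
  loc := fun v => by
    obtain ⟨Q, hQ⟩ := hP.loc v
    exact ⟨a • Q, fun s hs => by rw [Pi.smul_apply, hQ s hs, dl_smul h]⟩

theorem SelZ_smul (h : S.Ok) (chi : G → ZMod l) {j : ℕ} {m : G → V} (hm : m ∈ S.SelZ h chi j)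
    (a : A) : a • m ∈ S.SelZ h chi j := IsSel.smulA h a hm

theorem Cob_smul (h : S.Ok) {chi : G → ZMod l} {t : G → V} (ht : t ∈ S.Cob chi) (a : A) :
    a • t ∈ S.Cob chi := by
  obtain ⟨z, rfl⟩ := ht
  exact ⟨a • z, funext fun s => by rw [Pi.smul_apply, dl_smul h]⟩

theorem PV_add_left (h : S.Ok) {chi : G → ZMod l} (hchi : S.HomG chi) {j j' : ℕ}
    {m m' b : G → V} (hm : m ∈ S.SelZ h chi j) (hm' : m' ∈ S.SelZ h chi j')
    (hb : b ∈ S.SelZ h chi 1) : S.PV chi (m + m') b = S.PV chi m b + S.PV chi m' b :=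
  CT_add_left h hchi hm hm' (isSel_un h hb)

theorem un_comp_add (h : S.Ok) {chi : G → ZMod l} {b b' : G → V} (hb : b ∈ S.SelZ h chi 1)
    (hb' : b' ∈ S.SelZ h chi 1) :
    (fun s => S.un ((b + b') s)) = (fun s => S.un (b s)) + (fun s => S.un (b' s)) := by
  funext s
  have e := hb.lev s
  have e' := hb'.lev s
  rw [pow_one] at e e'
  simp only [Pi.add_apply, un_add h e e']

theorem PV_add_right (h : S.Ok) {chi : G → ZMod l} (hchi : S.HomG chi) {j : ℕ}
    {m b b' : G → V} (hm : m ∈ S.SelZ h chi j) (hb : b ∈ S.SelZ h chi 1)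
    (hb' : b' ∈ S.SelZ h chi 1) : S.PV chi m (b + b') = S.PV chi m b + S.PV chi m b' := by
  rw [PV, un_comp_add h hb hb']
  exact CT_add_right h hchi hm (isSel_un h hb) (isSel_un h hb')

/-- The criterion for the tower. -/
theorem PV_crit (h : S.Ok) {chi : G → ZMod l} (hchi : S.HomG chi) {j : ℕ} {m : G → V}
    (hm : m ∈ S.SelZ h chi j) :
    (∀ b ∈ S.SelZ h chi 1, S.PV chi m b = 0) ↔ ∃ m' ∈ S.SelZ h chi (j + 1), S.lam • m' = m := by
  constructor
  · intro hb
    obtain ⟨Phi, h1, h2⟩ := (ct_crit h hchi hm).mpr (fun b hb1 => by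
      have := hb _ (isSel_iota h hchi hb1)
      rw [PV] at this
      simpa only [un_iota h] using this)
    exact ⟨Phi, h1, funext h2⟩
  · rintro ⟨m', h1, h2⟩ b hb
    exact CT_of_two h hchi h1 (fun s => congrFun h2 s) (isSel_un h hb)

theorem Cob_half (h : S.Ok) {chi : G → ZMod l} {t : G → V} (ht : t ∈ S.Cob chi) :
    ∃ t' ∈ S.Cob chi, S.lam • t' = t := by
  obtain ⟨z, rfl⟩ := ht
  obtain ⟨y, hy⟩ := h.half z
  exact ⟨S.dl chi y, ⟨y, rfl⟩, funext fun s => by rw [Pi.smul_apply, ← dl_smul h, hy]⟩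

theorem Cob_SelZ (h : S.Ok) {chi : G → ZMod l} (hchi : S.HomG chi) {t : G → V}
    (ht : t ∈ S.Cob chi) {j : ℕ} (h0 : S.lam ^ j • t = 0) : t ∈ S.SelZ h chi j := by
  obtain ⟨z, rfl⟩ := ht
  exact isSel_dl h hchi fun s => congrFun h0 s

theorem Cob_tors (h : S.Ok) {chi : G → ZMod l} {t : G → V} (ht : t ∈ S.Cob chi) :
    ∃ j : ℕ, S.lam ^ j • t = 0 := by
  obtain ⟨z, rfl⟩ := ht
  obtain ⟨j, hj⟩ := h.tors z
  exact ⟨j, funext fun s => by rw [Pi.smul_apply, ← dl_smul h, hj, dl_zero]; rfl⟩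

/-! ### `l` is a multiple of `lam` on `V` -/

theorem coeff_one_sub_X_zero (n : ℕ) : ((1 - X : ℤ[X]) ^ n).coeff 0 = 1 := by
  rw [coeff_zero_eq_eval_zero]
  simp

theorem coeff_one_sub_X_one (n : ℕ) : ((1 - X : ℤ[X]) ^ n).coeff 1 = -(n : ℤ) := by
  have h1 := coeff_derivative ((1 - X : ℤ[X]) ^ n) 0
  rw [zero_add, Nat.cast_zero, zero_add, mul_one] at h1
  rw [← h1, derivative_pow, coeff_zero_eq_eval_zero]
  simp

theorem l_smul (h : S.Ok) : ∃ p : ℤ[X], ∀ Q : V, l • Q = S.lam • (aeval S.lam p • Q) := by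
  set f : ℤ[X] := (1 - X) ^ l with hf
  refine ⟨f.divX.divX, fun Q => ?_⟩
  obtain ⟨R, hR⟩ := h.half Q
  have e1 : aeval S.lam f = 1 + S.lam * aeval S.lam f.divX := by
    conv_lhs => rw [← divX_mul_X_add f]
    rw [map_add, map_mul, aeval_X, aeval_C, hf, coeff_one_sub_X_zero, map_one, mul_comm, add_comm]
  have e2 : aeval S.lam f.divX = -(l : A) + S.lam * aeval S.lam f.divX.divX := by
    conv_lhs => rw [← divX_mul_X_add f.divX]
    rw [map_add, map_mul, aeval_X, aeval_C, coeff_divX, zero_add, hf, coeff_one_sub_X_one,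
      mul_comm, add_comm]
    simp
  have e3 : aeval S.lam f = 1 := by
    rw [hf, map_pow, map_sub, map_one, aeval_X]
    have : (1 : A) - S.lam = S.ze := by rw [lam]; ring
    rw [this, h.ze_pow]
  have e4 : aeval S.lam f.divX • Q = 0 := by
    rw [← hR, smul_smul, mul_comm]
    have : S.lam * aeval S.lam f.divX = 0 := by
      have := e1
      rw [e3] at this
      exact left_eq_add.1 this
    rw [this, zero_smul]
  rw [e2, add_smul, neg_smul, mul_smul] at e4
  have e5 : (l : A) • Q = l • Q := Nat.cast_smul_eq_nsmul A l Q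
  rw [← e5]
  exact (neg_add_eq_zero.1 e4)

end Sys

end Pool.Agent.SmL
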