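import Pool.Agent.Lib.SmL.G.CTDefs

/-!
# SMITH-L block G, module Lift (G4): every Selmer cocycle is `lam` times a global cocycle
-/

set_option autoImplicit false

namespace Pool.Agent.SmL

variable {l : ℕ} {A G V V1 Pl : Type*} [CommRing A] [Group G] [AddCommGroup V] [Module A V]
  [DistribMulAction G V] [AddCommGroup V1] [Module (ZMod l) V1]

namespace Sys

variable {S : Sys l A G V V1 Pl}

/-- Pointwise division by `lam`. -/
theorem exists_hf (h : S.Ok) : ∃ hf : V → V, ∀ Q, S.lam • hf Q = Q :=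
  ⟨fun Q => (h.half Q).choose, fun Q => (h.half Q).choose_spec⟩

/-- Finitely many `NN`-finite functions together are `NN`-finite. -/
theorem TF.pi (h : S.Ok) {ι α : Type*} [Finite ι] {f : ι → G → α} (hf : ∀ i, S.TF (f i)) :
    S.TF (fun s i => f i s) := by
  classical
  have := Fintype.ofFinite ι
  choose N hN hf using hf
  have key : ∀ I : Finset ι, (I.inf N) ∈ S.NN := by
    intro I
    induction I using Finset.induction_on with
    | empty => simpa using h.top_mem
    | insert a I _ ih => rw [Finset.inf_insert]; exact h.inf_mem _ (hN a) _ ih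
  refine ⟨Finset.univ.inf N, key _, fun s n hn => funext fun i => ?_⟩
  have hle : Finset.univ.inf N ≤ N i := Finset.inf_le (Finset.mem_univ i)
  exact hf i s n (hle hn)

/-- G4: lifting under `lam` (uses the Hasse principle). -/
theorem exists_lift (h : S.Ok) {chi : G → ZMod l} (hchi : S.HomG chi) {j : ℕ} {Psi : G → V}
    (hP : S.IsSel chi j Psi) : ∃ hat : G → V, S.TF hat ∧
      (∀ s t, hat (s * t) = hat s + S.tw chi s (hat t)) ∧ ∀ s, S.lam • hat s = Psi s := by
  obtain ⟨hf, hhf⟩ := exists_hf h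
  set r : G → V := fun s => hf (Psi s) with hr
  have hr2 : ∀ s, S.lam • r s = Psi s := fun s => hhf _
  have hrj : ∀ s, S.lam ^ (j + 1) • r s = 0 := fun s => by
    rw [pow_succ, mul_smul, hr2, hP.lev]
  set c : G → G → V := fun s t => r s + S.tw chi s (r t) - r (s * t) with hc
  have hc2 : ∀ s t, S.lam • c s t = 0 := fun s t => by
    simp only [hc, smul_sub, smul_add, ← tw_smul h, hr2, hP.coc s t, sub_self]
  -- finiteness
  have hTF : ∃ N ∈ S.NN, ∀ s t, ∀ n ∈ N, ∀ m ∈ N, c (s * n) (t * m) = c s t := by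
    obtain ⟨N, hN, h1⟩ := hP.tf
    obtain ⟨N', hN', h2⟩ := act_tf h hchi (j + 1)
    refine ⟨N ⊓ N', h.inf_mem N hN N' hN', fun s t n hn m hm => ?_⟩
    have hrN : ∀ s, ∀ n ∈ N, r (s * n) = r s := fun s n hn => by simp only [hr, h1 s n hn]
    have hnorm := h.normal N hN
    have e : s * n * (t * m) = s * t * (t⁻¹ * n * t * m) := by group
    have hm' : t⁻¹ * n * t * m ∈ N :=
      N.mul_mem (by simpa using hnorm.conj_mem n hn.1 t⁻¹) hm.1
    simp only [hc]
    rw [hrN s n hn.1, hrN t m hm.1, h2 s n hn.2 _ (hrj t), e, hrN _ _ hm']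
  -- cocycle relation
  have hcoc : ∀ s t w, c s t + c (s * t) w = S.tw chi s (c t w) + c s (t * w) := by
    intro s t w
    simp only [hc, tw_sub, tw_add, tw_mul h hchi.2 s t, mul_assoc]
    abel
  -- the local condition
  have hloc : ∀ v, ∃ b : G → V1, S.TFOn (S.D v) b ∧
      ∀ s ∈ S.D v, ∀ t ∈ S.D v, S.un (c s t) = b s + S.ac s (b t) - b (s * t) := by
    intro v
    obtain ⟨Q, hQ⟩ := hP.loc v
    have hd2 : ∀ s ∈ S.D v, S.lam • (r s - S.dl chi (hf Q) s) = 0 := fun s hs => by
      rw [smul_sub, hr2, ← dl_smul h, hhf, hQ s hs, sub_self]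
    refine ⟨fun s => S.un (r s - S.dl chi (hf Q) s), ?_, ?_⟩
    · refine TFOn.comp (f := fun s => r s - S.dl chi (hf Q) s) ?_ S.un
      exact TFOn.comp₂ h ((hP.tf.comp hf).on _) ((dl_tf h hchi (hf Q)).on _) (fun a b => a - b)
    · intro s hs t ht
      have hst := (S.D v).mul_mem hs ht
      apply h.iota_inj
      rw [map_sub, map_add, iota_un h (hc2 s t), iota_un h (hd2 s hs),
        ← tw_of_two h chi s (hd2 t ht), iota_un h (hd2 _ hst)]
      simp only [hc, tw_sub, dl_mul h hchi.2]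
      abel
  -- apply the Hasse principle
  obtain ⟨N, hN, h1⟩ := hTF
  have hun : ∀ s t w, S.un (c s t) + S.un (c (s * t) w) =
      S.ac s (S.un (c t w)) + S.un (c s (t * w)) := by
    intro s t w
    rw [← un_add h (hc2 _ _) (hc2 _ _), ← un_tw h chi s (hc2 _ _),
      ← un_add h (two_tw h chi s (hc2 _ _)) (hc2 _ _), hcoc]
  obtain ⟨b, hb0, hb'⟩ := h.hasse (fun s t => S.un (c s t))
    ⟨N, hN, fun s t n hn m hm => by simp only [h1 s t n hn m hm]⟩ hun hloc
  have hb : ∀ s t, c s t = S.iota (b s) + S.iota (S.ac s (b t)) - S.iota (b (s * t)) := by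
    intro s t
    rw [← map_add, ← map_sub, ← iota_un h (hc2 s t)]
    congr 1
    exact hb' s t
  refine ⟨fun s => r s - S.iota (b s), ?_, ?_, ?_⟩
  · exact TF.comp₂ h (hP.tf.comp hf) hb0 (fun x y => x - S.iota y)
  · intro s t
    have e := hb s t
    simp only [hc] at e
    rw [tw_sub, tw_iota h]
    have : r (s * t) = r s + S.tw chi s (r t) - (S.iota (b s) + S.iota (S.ac s (b t))
      - S.iota (b (s * t))) := by rw [← e]; abel
    change r (s * t) - S.iota (b (s * t)) = r s - S.iota (b s)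
      + (S.tw chi s (r t) - S.iota (S.ac s (b t)))
    rw [this]; abel
  · intro s
    change S.lam • (r s - S.iota (b s)) = Psi s
    rw [smul_sub, hr2, h.lam_iota, sub_zero]

/-- Every Selmer cocycle has lifting data. -/
theorem exists_liftData (h : S.Ok) {chi : G → ZMod l} (hchi : S.HomG chi) {j : ℕ} {Psi : G → V}
    (hP : S.IsSel chi j Psi) : ∃ hat Q, S.LiftData chi Psi hat Q := by
  obtain ⟨hat, h1, h2, h3⟩ := exists_lift h hchi hP
  have : ∀ v, ∃ Q : V, ∀ s ∈ S.D v, Psi s = S.lam • S.dl chi Q s := by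
    intro v
    obtain ⟨Q, hQ⟩ := hP.loc v
    obtain ⟨R, hR⟩ := h.half Q
    exact ⟨R, fun s hs => by rw [← dl_smul h, hR, hQ s hs]⟩
  choose Q hQ using this
  exact ⟨hat, Q, h1, h2, h3, hQ⟩

end Sys

end Pool.Agent.SmL
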