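import Pool.Agent.Lib.SmL.G.Kum

/-!
# SMITH-L block G, module Unr (G2): the local condition at a good unramified place
-/

set_option autoImplicit false

namespace Pool.Agent.SmL

variable {l : ℕ} {A G V V1 Pl : Type*} [CommRing A] [Group G] [AddCommGroup V] [Module A V]
  [DistribMulAction G V] [AddCommGroup V1] [Module (ZMod l) V1]

namespace Sys

variable {S : Sys l A G V V1 Pl}

theorem CocD.sub (h : S.Ok) {chi : G → ZMod l} {v : Pl} {c d : G → V} (hc : S.CocD chi v c)
    (hd : S.CocD chi v d) : S.CocD chi v (fun s => c s - d s) := by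
  refine ⟨TFOn.comp₂ h hc.tf hd.tf (fun a b => a - b), fun s hs t ht => ?_⟩
  simp only [hc.coc s hs t ht, hd.coc s hs t ht, tw_sub]
  abel

theorem CocD.add (h : S.Ok) {chi : G → ZMod l} {v : Pl} {c d : G → V} (hc : S.CocD chi v c)
    (hd : S.CocD chi v d) : S.CocD chi v (fun s => c s + d s) := by
  refine ⟨TFOn.comp₂ h hc.tf hd.tf (fun a b => a + b), fun s hs t ht => ?_⟩
  simp only [hc.coc s hs t ht, hd.coc s hs t ht, tw_add]
  abel

theorem CocD.nsmul {chi : G → ZMod l} {v : Pl} {c : G → V} (hc : S.CocD chi v c)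
    (n : ℕ) : S.CocD chi v (fun s => n • c s) := by
  refine ⟨hc.tf.comp (fun a => n • a), fun s hs t ht => ?_⟩
  simp only [hc.coc s hs t ht, tw_nsmul, smul_add]

theorem CocD.smulA (h : S.Ok) {chi : G → ZMod l} {v : Pl} {c : G → V} (hc : S.CocD chi v c)
    (a : A) : S.CocD chi v (fun s => a • c s) := by
  refine ⟨hc.tf.comp (fun b => a • b), fun s hs t ht => ?_⟩
  simp only [hc.coc s hs t ht, tw_smul h, smul_add]

theorem Zv.sub {chi : G → ZMod l} {v : Pl} {c d : G → V} (hc : S.Zv chi v c)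
    (hd : S.Zv chi v d) : S.Zv chi v (fun s => c s - d s) := by
  obtain ⟨Q, hQ⟩ := hc
  obtain ⟨R, hR⟩ := hd
  exact ⟨Q - R, fun s hs => by simp only [dl_sub, hQ s hs, hR s hs]⟩

theorem Zv.add {chi : G → ZMod l} {v : Pl} {c d : G → V} (hc : S.Zv chi v c)
    (hd : S.Zv chi v d) : S.Zv chi v (fun s => c s + d s) := by
  obtain ⟨Q, hQ⟩ := hc
  obtain ⟨R, hR⟩ := hd
  exact ⟨Q + R, fun s hs => by simp only [dl_add, hQ s hs, hR s hs]⟩

theorem Zv.nsmul {chi : G → ZMod l} {v : Pl} {c : G → V} (hc : S.Zv chi v c)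
    (n : ℕ) : S.Zv chi v (fun s => n • c s) := by
  obtain ⟨Q, hQ⟩ := hc
  exact ⟨n • Q, fun s hs => by simp only [dl_nsmul, hQ s hs]⟩

theorem Zv.smulA (h : S.Ok) {chi : G → ZMod l} {v : Pl} {c : G → V} (hc : S.Zv chi v c)
    (a : A) : S.Zv chi v (fun s => a • c s) := by
  obtain ⟨Q, hQ⟩ := hc
  exact ⟨a • Q, fun s hs => by simp only [dl_smul h, hQ s hs]⟩

/-- Division by powers of `lam`. -/
theorem half_pow (h : S.Ok) (j : ℕ) (Q : V) : ∃ R : V, S.lam ^ j • R = Q := by
  induction j generalizing Q with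
  | zero => exact ⟨Q, by rw [pow_zero, one_smul]⟩
  | succ j ih =>
    obtain ⟨Q', hQ'⟩ := h.half Q
    obtain ⟨R, hR⟩ := ih Q'
    exact ⟨R, by rw [pow_succ', mul_smul, hR, hQ']⟩

/-- A `V[lam]`-valued local cocycle whose pair of values lies in the Kummer group is a
coboundary. -/
theorem zv_of_Wl (h : S.Ok) {chi : G → ZMod l} (hchi : S.HomG chi) {v : Pl} {c : G → V}
    (hc : S.CocD chi v c) {x : V1 × V1} (hx : x ∈ S.Wl chi v) (h1 : c (S.sg v) = S.iota x.1)
    (h2 : c (S.phi v) = S.iota x.2) : S.Zv chi v c := by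
  obtain ⟨Q, _, h3, h4⟩ := hx
  exact ⟨Q, cocD_ext h hchi v hc (dl_cocD h hchi Q v) (h1.trans h3.symm) (h2.trans h4.symm)⟩

/-- G2: at a good place where the twist is unramified, a cocycle with values in `V[lam^j]` satisfies
the local condition iff it is unramified. -/
theorem zv_iff_unr (h : S.Ok) {chi : G → ZMod l} (hchi : S.HomG chi) {v : Pl} (hv : v ∈ S.good)
    (h0 : chi (S.sg v) = 0) (j : ℕ) {c : G → V} (hc : S.CocD chi v c)
    (hj : ∀ s ∈ S.D v, S.lam ^ j • c s = 0) : S.Zv chi v c ↔ c (S.sg v) = 0 := by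
  constructor
  · rintro ⟨Q, hQ⟩
    rw [hQ _ (h.sg_mem v), dl_sg_zero h hv h0]
  · induction j generalizing c with
    | zero =>
      intro _
      refine ⟨0, fun s hs => ?_⟩
      have := hj s hs
      rw [pow_zero, one_smul] at this
      rw [this, dl_zero]
    | succ j ih =>
      intro hs0
      -- the top part
      have hc' : S.CocD chi v (fun s => S.lam ^ j • c s) := hc.smulA h _
      have h2 : S.lam • (S.lam ^ j • c (S.phi v)) = 0 := by
        rw [smul_smul, ← pow_succ', hj _ (h.phi_mem v)]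
      have hz : S.Zv chi v (fun s => S.lam ^ j • c s) := by
        refine zv_of_Wl h hchi hc' (x := (0, S.un (S.lam ^ j • c (S.phi v)))) ?_ ?_ ?_
        · rw [mem_Wl_good h hchi hv h0]
        · simp only [hs0, smul_zero, map_zero]
        · simp only [iota_un h h2]
      obtain ⟨Q, hQ⟩ := hz
      obtain ⟨R, hR⟩ : ∃ R : V, S.lam ^ j • R = Q := half_pow h j Q
      have hd : S.CocD chi v (fun s => c s - S.dl chi R s) := hc.sub h (dl_cocD h hchi R v)
      obtain ⟨Q2, hQ2⟩ := ih hd (fun s hs => by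
        rw [smul_sub, ← dl_smul h, hR, ← hQ s hs, sub_self]) (by
        simp only [hs0, dl_sg_zero h hv h0, sub_self])
      refine ⟨Q2 + R, fun s hs => ?_⟩
      rw [dl_add, ← hQ2 s hs, sub_add_cancel]

end Sys

end Pool.Agent.SmL
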