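import Pool.Agent.Lib.SmL.G.Lift
import Pool.Agent.Lib.SmL.G.Unr

/-!
# SMITH-L block G, module CT (G5): the Cassels-Tate pairing
-/

set_option autoImplicit false

namespace Pool.Agent.SmL

variable {l : ℕ} {A G V V1 Pl : Type*} [CommRing A] [Group G] [AddCommGroup V] [Module A V]
  [DistribMulAction G V] [AddCommGroup V1] [Module (ZMod l) V1]

namespace Sys

variable {S : Sys l A G V V1 Pl}

theorem sy_add_left (v : Pl) (x y z : V1 × V1) :
    S.sy v (x + y) z = S.sy v x z + S.sy v y z := by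
  rw [map_add, LinearMap.add_apply]

theorem sy_add_right (v : Pl) (x y z : V1 × V1) :
    S.sy v x (y + z) = S.sy v x y + S.sy v x z := map_add _ _ _

theorem sy_zero_left (v : Pl) (x : V1 × V1) : S.sy v 0 x = 0 := by
  rw [map_zero, LinearMap.zero_apply]

theorem sy_zero_right (v : Pl) (x : V1 × V1) : S.sy v x 0 = 0 := map_zero _

theorem loc_add (v : Pl) (b b' : G → V1) : S.loc v (b + b') = S.loc v b + S.loc v b' := rfl

theorem loc_zero (v : Pl) : S.loc v (0 : G → V1) = 0 := rfl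

theorem HomG.add (h : S.Ok) {B : Type*} [AddCommGroup B] {b b' : G → B} (hb : S.HomG b)
    (hb' : S.HomG b') : S.HomG (b + b') := by
  refine ⟨TF.comp₂ h hb.1 hb'.1 (fun x y => x + y), fun s t => ?_⟩
  simp only [Pi.add_apply, hb.2 s t, hb'.2 s t]
  abel

theorem HomG.zero (h : S.Ok) {B : Type*} [AddCommGroup B] : S.HomG (0 : G → B) :=
  ⟨TF_const h 0, fun _ _ => (add_zero 0).symm⟩

theorem CocG.add (h : S.Ok) {b b' : G → V1} (hb : S.CocG b) (hb' : S.CocG b') :
    S.CocG (b + b') := by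
  refine ⟨TF.comp₂ h hb.1 hb'.1 (fun x y => x + y), fun s t => ?_⟩
  simp only [Pi.add_apply, hb.2 s t, hb'.2 s t, map_add]
  abel

theorem CocG.zero (h : S.Ok) : S.CocG (0 : G → V1) :=
  ⟨TF_const h 0, fun s _ => by simp⟩

theorem IsSel1.add (h : S.Ok) {chi : G → ZMod l} {b b' : G → V1} (hb : S.IsSel1 chi b)
    (hb' : S.IsSel1 chi b') : S.IsSel1 chi (b + b') :=
  ⟨hb.1.add h hb'.1, fun v => (S.W chi v).add_mem (hb.2 v) (hb'.2 v)⟩

theorem IsSel1.zero (h : S.Ok) (chi : G → ZMod l) : S.IsSel1 chi (0 : G → V1) :=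
  ⟨CocG.zero h, fun v => (S.W chi v).zero_mem⟩

namespace LiftData

variable {chi : G → ZMod l} {Psi hat : G → V} {Q : Pl → V}

/-- The local difference is killed by 2. -/
theorem two_sub (hd : S.LiftData chi Psi hat Q) (v : Pl) {s : G} (hs : s ∈ S.D v) :
    S.lam • (hat s - S.dl chi (Q v) s) = 0 := by
  rw [smul_sub, hd.two, hd.loc v s hs, sub_self]

theorem iota_xi1 (h : S.Ok) (hd : S.LiftData chi Psi hat Q) (v : Pl) :
    S.iota (S.xi chi hat Q v).1 = hat (S.sg v) - S.dl chi (Q v) (S.sg v) :=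
  iota_un h (hd.two_sub v (h.sg_mem v))

theorem iota_xi2 (h : S.Ok) (hd : S.LiftData chi Psi hat Q) (v : Pl) :
    S.iota (S.xi chi hat Q v).2 = hat (S.phi v) - S.dl chi (Q v) (S.phi v) :=
  iota_un h (hd.two_sub v (h.phi_mem v))

/-- `xi` is unramified at almost all places. -/
theorem fin (h : S.Ok) (hchi : S.HomG chi) (hd : S.LiftData chi Psi hat Q) :
    {v | (S.xi chi hat Q v).1 ≠ 0}.Finite := by
  refine ((bad_fin h hchi).union (coc_fin h hchi hd.tf hd.coc)).subset fun v hv => ?_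
  by_cases hg : v ∈ S.good ∧ chi (S.sg v) = 0
  · refine Or.inr fun h0 => hv ?_
    rw [← iota_eq_zero h, hd.iota_xi1 h, h0, dl_sg_zero h hg.1 hg.2, sub_zero]
  · exact Or.inl hg

/-- The local difference is a pair of values of a cocycle. -/
theorem xi_CP (h : S.Ok) (hchi : S.HomG chi) (hd : S.LiftData chi Psi hat Q) (v : Pl) :
    S.xi chi hat Q v ∈ S.CP v := by
  have hc : S.CocD chi v (fun s => hat s - S.dl chi (Q v) s) := by
    refine ⟨TFOn.comp₂ h (hd.tf.on _) ((dl_tf h hchi (Q v)).on _) (fun a b => a - b),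
      fun s _ t _ => ?_⟩
    simp only [hd.coc s t, dl_mul h hchi.2, tw_sub]
    abel
  exact cp_of_cocD h hc (fun s hs => hd.two_sub v hs)

/-- The summands of the Cassels-Tate pairing have finite support. -/
theorem supp (h : S.Ok) (hchi : S.HomG chi) (hd : S.LiftData chi Psi hat Q) {b : G → V1}
    (hb : S.CocG b) : {v | S.sy v (S.xi chi hat Q v) (S.loc v b) ≠ 0}.Finite := by
  refine ((h.good_fin.union (hd.fin h hchi)).union (CocG.fin h hb)).subset fun v hv => ?_
  by_contra hc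
  rw [Set.mem_union, Set.mem_union, not_or, not_or] at hc
  apply hv
  have e : (S.loc v b).1 = 0 := not_not.mp hc.2
  rw [h.sy_unr v (not_not.mp hc.1.1) _ (hd.xi_CP h hchi v) _ (loc_mem_CP hb v)
    (not_not.mp hc.1.2), e, map_zero]

theorem add (h : S.Ok) (hd : S.LiftData chi Psi hat Q) {Psi' hat' : G → V} {Q' : Pl → V}
    (hd' : S.LiftData chi Psi' hat' Q') :
    S.LiftData chi (Psi + Psi') (hat + hat') (Q + Q') where
  tf := TF.comp₂ h hd.tf hd'.tf (fun x y => x + y)
  coc := fun s t => by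
    simp only [Pi.add_apply, hd.coc s t, hd'.coc s t, tw_add]; abel
  two := fun s => by simp only [Pi.add_apply, smul_add, hd.two, hd'.two]
  loc := fun v s hs => by
    simp only [Pi.add_apply, dl_add, smul_add, hd.loc v s hs, hd'.loc v s hs]

theorem xi_add (h : S.Ok) (hd : S.LiftData chi Psi hat Q) {Psi' hat' : G → V} {Q' : Pl → V}
    (hd' : S.LiftData chi Psi' hat' Q') (v : Pl) :
    S.xi chi (hat + hat') (Q + Q') v = S.xi chi hat Q v + S.xi chi hat' Q' v := by
  refine Prod.ext (h.iota_inj ?_) (h.iota_inj ?_)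
  · rw [(hd.add h hd').iota_xi1 h, Prod.fst_add, map_add, hd.iota_xi1 h, hd'.iota_xi1 h]
    simp only [Pi.add_apply, dl_add]; abel
  · rw [(hd.add h hd').iota_xi2 h, Prod.snd_add, map_add, hd.iota_xi2 h, hd'.iota_xi2 h]
    simp only [Pi.add_apply, dl_add]; abel

end LiftData

theorem sy_supp (h : S.Ok) {c d : G → V1} (hc : S.CocG c) (hd : S.CocG d) :
    {v | S.sy v (S.loc v c) (S.loc v d) ≠ 0}.Finite := by
  refine ((h.good_fin.union (CocG.fin h hc)).union (CocG.fin h hd)).subset fun v hv => ?_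
  by_contra hn
  rw [Set.mem_union, Set.mem_union, not_or, not_or] at hn
  apply hv
  have e : (S.loc v d).1 = 0 := not_not.mp hn.2
  rw [h.sy_unr v (not_not.mp hn.1.1) _ (loc_mem_CP hc v) _ (loc_mem_CP hd v)
    (not_not.mp hn.1.2), e, map_zero]

/-- The value of the sum does not depend on the data. -/
theorem ct_indep (h : S.Ok) {chi : G → ZMod l} (hchi : S.HomG chi) {Psi hat hat' : G → V}
    {Q Q' : Pl → V} (hd : S.LiftData chi Psi hat Q) (hd' : S.LiftData chi Psi hat' Q')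
    {b : G → V1} (hb : S.IsSel1 chi b) :
    ∑ᶠ v, S.sy v (S.xi chi hat Q v) (S.loc v b) =
      ∑ᶠ v, S.sy v (S.xi chi hat' Q' v) (S.loc v b) := by
  -- the global difference
  have h2 : ∀ s, S.lam • (hat s - hat' s) = 0 := fun s => by
    rw [smul_sub, hd.two, hd'.two, sub_self]
  set a : G → V1 := fun s => S.un (hat s - hat' s) with ha
  have hia : ∀ s, S.iota (a s) = hat s - hat' s := fun s => iota_un h (h2 s)
  have haH : S.CocG a := by
    refine ⟨(TF.comp₂ h hd.tf hd'.tf (fun x y => S.un (x - y))), fun s t => h.iota_inj ?_⟩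
    rw [map_add, hia, hia, ← tw_of_two h chi s (h2 t), hd.coc, hd'.coc, tw_sub]
    abel
  -- the local difference
  have h3 : ∀ v, ∀ s ∈ S.D v, S.lam • S.dl chi (Q v - Q' v) s = 0 := fun v s hs => by
    rw [dl_sub, smul_sub, ← hd.loc v s hs, ← hd'.loc v s hs, sub_self]
  have key : ∀ v, S.sy v (S.xi chi hat Q v) (S.loc v b) =
      S.sy v (S.xi chi hat' Q' v) (S.loc v b) + S.sy v (S.loc v a) (S.loc v b) := by
    intro v
    set x : V1 × V1 := (S.un (S.dl chi (Q v - Q' v) (S.sg v)), S.un (S.dl chi (Q v - Q' v) (S.phi v)))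
      with hx
    have hxW : x ∈ S.Wl chi v := ⟨Q v - Q' v, h3 v, (iota_un h (h3 v _ (h.sg_mem v))).symm,
      (iota_un h (h3 v _ (h.phi_mem v))).symm⟩
    have e : S.xi chi hat Q v + x = S.xi chi hat' Q' v + S.loc v a := by
      refine Prod.ext (h.iota_inj ?_) (h.iota_inj ?_)
      · rw [Prod.fst_add, Prod.fst_add, map_add, map_add, hd.iota_xi1 h, hd'.iota_xi1 h]
        change _ + S.iota (S.un _) = _ + S.iota (a (S.sg v))
        rw [hia, iota_un h (h3 v _ (h.sg_mem v)), dl_sub]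
        abel
      · rw [Prod.snd_add, Prod.snd_add, map_add, map_add, hd.iota_xi2 h, hd'.iota_xi2 h]
        change _ + S.iota (S.un _) = _ + S.iota (a (S.phi v))
        rw [hia, iota_un h (h3 v _ (h.phi_mem v)), dl_sub]
        abel
    rw [← sy_add_left, ← e, sy_add_left, h.isot chi hchi v x hxW _ (hb.2 v), add_zero]
  rw [finsum_congr key, finsum_add_distrib (hd'.supp h hchi hb.1) (sy_supp h haH hb.1),
    h.recip a b haH hb.1, add_zero]

/-- The pairing can be computed with any data. -/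
theorem CT_eq (h : S.Ok) {chi : G → ZMod l} (hchi : S.HomG chi) {Psi hat : G → V} {Q : Pl → V}
    (hd : S.LiftData chi Psi hat Q) {b : G → V1} (hb : S.IsSel1 chi b) :
    S.CT chi Psi b = ∑ᶠ v, S.sy v (S.xi chi hat Q v) (S.loc v b) := by
  have hex : ∃ p : (G → V) × (Pl → V), S.LiftData chi Psi p.1 p.2 := ⟨(hat, Q), hd⟩
  rw [CT, dif_pos hex]
  exact ct_indep h hchi hex.choose_spec hd hb

theorem CT_add_right (h : S.Ok) {chi : G → ZMod l} (hchi : S.HomG chi) {Psi : G → V} {j : ℕ}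
    (hP : S.IsSel chi j Psi) {b b' : G → V1} (hb : S.IsSel1 chi b) (hb' : S.IsSel1 chi b') :
    S.CT chi Psi (b + b') = S.CT chi Psi b + S.CT chi Psi b' := by
  obtain ⟨hat, Q, hd⟩ := exists_liftData h hchi hP
  rw [CT_eq h hchi hd hb, CT_eq h hchi hd hb', CT_eq h hchi hd (hb.add h hb'),
    ← finsum_add_distrib (hd.supp h hchi hb.1) (hd.supp h hchi hb'.1)]
  exact finsum_congr fun v => by rw [loc_add, sy_add_right]

theorem CT_add_left (h : S.Ok) {chi : G → ZMod l} (hchi : S.HomG chi) {Psi Psi' : G → V}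
    {j j' : ℕ} (hP : S.IsSel chi j Psi) (hP' : S.IsSel chi j' Psi') {b : G → V1}
    (hb : S.IsSel1 chi b) :
    S.CT chi (Psi + Psi') b = S.CT chi Psi b + S.CT chi Psi' b := by
  obtain ⟨hat, Q, hd⟩ := exists_liftData h hchi hP
  obtain ⟨hat', Q', hd'⟩ := exists_liftData h hchi hP'
  rw [CT_eq h hchi hd hb, CT_eq h hchi hd' hb, CT_eq h hchi (hd.add h hd') hb,
    ← finsum_add_distrib (hd.supp h hchi hb.1) (hd'.supp h hchi hb.1)]
  exact finsum_congr fun v => by rw [hd.xi_add h hd', sy_add_left]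

theorem CT_zero_right (h : S.Ok) {chi : G → ZMod l} (hchi : S.HomG chi) {Psi : G → V} {j : ℕ}
    (hP : S.IsSel chi j Psi) : S.CT chi Psi 0 = 0 := by
  have := CT_add_right h hchi hP (IsSel1.zero h chi) (IsSel1.zero h chi)
  rw [add_zero] at this
  exact left_eq_add.mp this

/-- If `Psi = 2 Phi` with `Phi` a locally trivial cocycle, then the pairing vanishes. -/
theorem CT_of_two (h : S.Ok) {chi : G → ZMod l} (hchi : S.HomG chi) {Psi Phi : G → V} {j : ℕ}
    (hP : S.IsSel chi j Phi) (h2 : ∀ s, S.lam • Phi s = Psi s) {b : G → V1}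
    (hb : S.IsSel1 chi b) : S.CT chi Psi b = 0 := by
  choose Q hQ using hP.loc
  have hd : S.LiftData chi Psi Phi Q :=
    ⟨hP.tf, hP.coc, h2, fun v s hs => by rw [← hQ v s hs, h2]⟩
  rw [CT_eq h hchi hd hb]
  have : ∀ v, S.sy v (S.xi chi Phi Q v) (S.loc v b) = 0 := fun v => by
    have hx : S.xi chi Phi Q v = 0 := by
      refine Prod.ext (h.iota_inj ?_) (h.iota_inj ?_)
      · rw [hd.iota_xi1 h, hQ v _ (h.sg_mem v), sub_self]; exact (map_zero _).symm
      · rw [hd.iota_xi2 h, hQ v _ (h.phi_mem v), sub_self]; exact (map_zero _).symm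
    rw [hx, sy_zero_left]
  rw [finsum_congr this, finsum_zero]

/-- A coboundary `S.dl chi z` is a Selmer cocycle. -/
theorem isSel_dl (h : S.Ok) {chi : G → ZMod l} (hchi : S.HomG chi) {j : ℕ} {z : V}
    (hz : ∀ s, S.lam ^ j • S.dl chi z s = 0) : S.IsSel chi j (S.dl chi z) :=
  ⟨dl_tf h hchi z, dl_mul h hchi.2 z, hz, fun _ => ⟨z, fun _ _ => rfl⟩⟩

/-- The pairing vanishes on coboundaries. -/
theorem CT_dl (h : S.Ok) {chi : G → ZMod l} (hchi : S.HomG chi) (z : V) {b : G → V1}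
    (hb : S.IsSel1 chi b) : S.CT chi (S.dl chi z) b = 0 := by
  obtain ⟨y, hy⟩ := h.half z
  obtain ⟨j, hj⟩ := h.tors y
  refine CT_of_two h hchi (Phi := S.dl chi y) (j := j) (isSel_dl h hchi fun s => ?_) (fun s => ?_) hb
  · rw [← dl_smul h, hj, dl_zero]
  · rw [← dl_smul h, hy]

end Sys

end Pool.Agent.SmL
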