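import Pool.Agent.Lib.SmL.Sys

/-!
# SMITH-L block G, module Tw: algebra of the twisted action, `NN`-finite functions
-/

set_option autoImplicit false

namespace Pool.Agent.SmL

variable {l : ℕ} {A G V V1 Pl : Type*} [CommRing A] [Group G] [AddCommGroup V] [Module A V]
  [DistribMulAction G V] [AddCommGroup V1] [Module (ZMod l) V1]

theorem chi_one {chi : G → ZMod l} (h : ∀ s t, chi (s * t) = chi s + chi t) : chi 1 = 0 := by
  have := h 1 1
  rw [one_mul] at this
  exact left_eq_add.mp this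

theorem V1_l (w : V1) : l • w = 0 := by
  rw [← Nat.cast_smul_eq_nsmul (ZMod l), ZMod.natCast_self, zero_smul]

namespace Sys

variable {S : Sys l A G V V1 Pl}

theorem zz_zero (S : Sys l A G V V1 Pl) : S.zz 0 = 1 := by simp [zz]

theorem ze_pow_mod (h : S.Ok) (n : ℕ) : S.ze ^ (n % l) = S.ze ^ n := by
  conv_rhs => rw [← Nat.div_add_mod n l, pow_add, pow_mul, h.ze_pow, one_pow, one_mul]

theorem zz_natCast (h : S.Ok) (n : ℕ) : S.zz (n : ZMod l) = S.ze ^ n := by
  rw [zz, ZMod.val_natCast, ze_pow_mod h]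

theorem zz_add (h : S.Ok) (a b : ZMod l) : S.zz (a + b) = S.zz a * S.zz b := by
  have : NeZero l := ⟨h.prime.ne_zero⟩
  rw [zz, zz, zz, ZMod.val_add, ze_pow_mod h, pow_add]

theorem zz_one (h : S.Ok) : S.zz 1 = S.ze := by
  have := zz_natCast h 1
  simpa using this

theorem zz_neg_mul (h : S.Ok) (a : ZMod l) : S.zz (-a) * S.zz a = 1 := by
  rw [← zz_add h, neg_add_cancel, zz_zero]

theorem zz_mul_neg (h : S.Ok) (a : ZMod l) : S.zz a * S.zz (-a) = 1 := by
  rw [← zz_add h, add_neg_cancel, zz_zero]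

/-- `1 - ze^a = lam * uu a`. -/
theorem one_sub_zz (S : Sys l A G V V1 Pl) (a : ZMod l) : 1 - S.zz a = S.lam * S.uu a := by
  have := geom_sum_mul S.ze a.val
  rw [zz, lam, uu]
  linear_combination this

theorem zz_eq (S : Sys l A G V V1 Pl) (a : ZMod l) : S.zz a = 1 - S.lam * S.uu a := by
  rw [← one_sub_zz]; ring

/-- `ze^n` acts trivially on an element killed by `lam`. -/
theorem ze_pow_of_lam {Q : V} (hQ : S.lam • Q = 0) (n : ℕ) : S.ze ^ n • Q = Q := by
  have h1 : S.ze • Q = Q := by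
    have : Q - S.ze • Q = 0 := by rw [← hQ, lam, sub_smul, one_smul]
    exact (sub_eq_zero.mp this).symm
  induction n with
  | zero => simp
  | succ n ih => rw [pow_succ, mul_smul, h1, ih]

theorem zz_of_lam {Q : V} (hQ : S.lam • Q = 0) (a : ZMod l) : S.zz a • Q = Q :=
  ze_pow_of_lam hQ _

/-- `uu a` acts on `V[lam]` as `a`. -/
theorem uu_of_lam {Q : V} (hQ : S.lam • Q = 0) (a : ZMod l) : S.uu a • Q = a.val • Q := by
  rw [uu, Finset.sum_smul, Finset.sum_congr rfl fun i _ => ze_pow_of_lam hQ i,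
    Finset.sum_const, Finset.card_range]

section tw

variable (S) (chi : G → ZMod l)

theorem tw_add (s : G) (Q R : V) : S.tw chi s (Q + R) = S.tw chi s Q + S.tw chi s R := by
  simp [tw, smul_add]

theorem tw_zero (s : G) : S.tw chi s (0 : V) = 0 := by simp [tw]

theorem tw_neg (s : G) (Q : V) : S.tw chi s (-Q) = -S.tw chi s Q := by simp [tw]

theorem tw_sub (s : G) (Q R : V) : S.tw chi s (Q - R) = S.tw chi s Q - S.tw chi s R := by
  rw [sub_eq_add_neg, tw_add, tw_neg, ← sub_eq_add_neg]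

theorem tw_nsmul (s : G) (n : ℕ) (Q : V) : S.tw chi s (n • Q) = n • S.tw chi s Q := by
  induction n with
  | zero => simp [tw_zero]
  | succ n ih => rw [succ_nsmul, tw_add, ih, succ_nsmul]

theorem tw_zsmul (s : G) (n : ℤ) (Q : V) : S.tw chi s (n • Q) = n • S.tw chi s Q := by
  cases n with
  | ofNat n => simpa using tw_nsmul S chi s n Q
  | negSucc n => rw [negSucc_zsmul, tw_neg, tw_nsmul, negSucc_zsmul]

theorem tw_of_zero {s : G} (h : chi s = 0) (Q : V) : S.tw chi s Q = s • Q := by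
  simp [tw, h, zz]

end tw

variable {chi : G → ZMod l}

theorem tw_smul (h : S.Ok) (chi : G → ZMod l) (s : G) (a : A) (Q : V) :
    S.tw chi s (a • Q) = a • S.tw chi s Q := by
  simp only [tw, h.smul_comm, smul_smul, mul_comm]

theorem tw_one (h : ∀ s t, chi (s * t) = chi s + chi t) (Q : V) : S.tw chi 1 Q = Q := by
  rw [tw_of_zero S chi (chi_one h), one_smul]

theorem tw_mul (hS : S.Ok) (h : ∀ s t, chi (s * t) = chi s + chi t) (s t : G) (Q : V) :
    S.tw chi (s * t) Q = S.tw chi s (S.tw chi t Q) := by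
  simp only [tw, h, zz_add hS, mul_smul, hS.smul_comm]

/-- Two twists differ by a power of `ze`. -/
theorem tw_add_chi (hS : S.Ok) (chi th : G → ZMod l) (s : G) (Q : V) :
    S.tw (chi + th) s Q = S.zz (th s) • S.tw chi s Q := by
  simp only [tw, Pi.add_apply, zz_add hS, mul_smul]
  rw [smul_comm]

variable (S) (chi) in
theorem dl_add (Q R : V) (s : G) : S.dl chi (Q + R) s = S.dl chi Q s + S.dl chi R s := by
  simp only [dl, tw_add]; abel

variable (S) (chi) in
theorem dl_zero (s : G) : S.dl chi (0 : V) s = 0 := by simp [dl, tw_zero]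

variable (S) (chi) in
theorem dl_neg (Q : V) (s : G) : S.dl chi (-Q) s = -S.dl chi Q s := by
  simp only [dl, tw_neg]; abel

variable (S) (chi) in
theorem dl_sub (Q R : V) (s : G) : S.dl chi (Q - R) s = S.dl chi Q s - S.dl chi R s := by
  simp only [dl, tw_sub]; abel

variable (S) (chi) in
theorem dl_nsmul (n : ℕ) (Q : V) (s : G) : S.dl chi (n • Q) s = n • S.dl chi Q s := by
  simp only [dl, tw_nsmul, smul_sub]

theorem dl_smul (h : S.Ok) (chi : G → ZMod l) (a : A) (Q : V) (s : G) :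
    S.dl chi (a • Q) s = a • S.dl chi Q s := by
  simp only [dl, tw_smul h, smul_sub]

theorem dl_one (h : ∀ s t, chi (s * t) = chi s + chi t) (Q : V) : S.dl chi Q 1 = 0 := by
  simp [dl, tw_one h]

/-- The coboundary is a cocycle. -/
theorem dl_mul (hS : S.Ok) (h : ∀ s t, chi (s * t) = chi s + chi t) (Q : V) (s t : G) :
    S.dl chi Q (s * t) = S.dl chi Q s + S.tw chi s (S.dl chi Q t) := by
  simp only [dl, tw_mul hS h, tw_sub]; abel

/-- A twisted cocycle vanishes at `1`. -/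
theorem coc_one (hc : ∀ s t, chi (s * t) = chi s + chi t) {Psi : G → V}
    (h : ∀ s t, Psi (s * t) = Psi s + S.tw chi s (Psi t)) : Psi 1 = 0 := by
  have := h 1 1
  rw [one_mul, tw_one hc] at this
  exact left_eq_add.mp this

theorem iota_smul (h : S.Ok) (a : ZMod l) (w : V1) : S.iota (a • w) = a.val • S.iota w := by
  have : NeZero l := ⟨h.prime.ne_zero⟩
  conv_lhs => rw [← ZMod.natCast_zmod_val a, Nat.cast_smul_eq_nsmul]
  rw [map_nsmul]

/-- `uu a` on the image of `iota`. -/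
theorem uu_iota (h : S.Ok) (a : ZMod l) (w : V1) : S.uu a • S.iota w = S.iota (a • w) := by
  rw [uu_of_lam (h.lam_iota w), iota_smul h]

/-- The twisted action on `V1`. -/
theorem tw_iota (h : S.Ok) (chi : G → ZMod l) (s : G) (w : V1) :
    S.tw chi s (S.iota w) = S.iota (S.ac s w) := by
  rw [tw, h.iota_ac, zz_of_lam (h.lam_iota _)]

theorem dl_iota (h : S.Ok) (chi : G → ZMod l) (s : G) (w : V1) :
    S.dl chi (S.iota w) s = S.iota (S.ac s w - w) := by
  rw [dl, tw_iota h, map_sub]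

theorem lam_dl_iota (h : S.Ok) (chi : G → ZMod l) (s : G) (w : V1) :
    S.lam • S.dl chi (S.iota w) s = 0 := by
  rw [dl_iota h, h.lam_iota]

theorem TF.comp {α β : Type*} {f : G → α} (hf : S.TF f) (g : α → β) : S.TF (fun s => g (f s)) := by
  obtain ⟨N, hN, h⟩ := hf
  exact ⟨N, hN, fun s n hn => by simp only [h s n hn]⟩

theorem TF.comp₂ {α β γ : Type*} {f : G → α} {f' : G → β} (h : S.Ok) (hf : S.TF f)
    (hf' : S.TF f') (g : α → β → γ) : S.TF (fun s => g (f s) (f' s)) := by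
  obtain ⟨N, hN, h1⟩ := hf
  obtain ⟨N', hN', h2⟩ := hf'
  exact ⟨N ⊓ N', h.inf_mem N hN N' hN', fun s n hn => by
    simp only [h1 s n hn.1, h2 s n hn.2]⟩

theorem TF_const (h : S.Ok) {α : Type*} (a : α) : S.TF (fun _ => a) :=
  ⟨⊤, h.top_mem, fun _ _ _ => rfl⟩

theorem TF.on {α : Type*} {f : G → α} (hf : S.TF f) (H : Subgroup G) : S.TFOn H f := by
  obtain ⟨N, hN, h⟩ := hf
  exact ⟨N, hN, fun s _ n hn _ => h s n hn⟩

theorem TFOn.comp {α β : Type*} {H : Subgroup G} {f : G → α} (hf : S.TFOn H f) (g : α → β) :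
    S.TFOn H (fun s => g (f s)) := by
  obtain ⟨N, hN, h⟩ := hf
  exact ⟨N, hN, fun s hs n hn hnH => by simp only [h s hs n hn hnH]⟩

theorem TFOn.comp₂ {α β γ : Type*} {H : Subgroup G} {f : G → α} {f' : G → β} (h : S.Ok)
    (hf : S.TFOn H f) (hf' : S.TFOn H f') (g : α → β → γ) :
    S.TFOn H (fun s => g (f s) (f' s)) := by
  obtain ⟨N, hN, h1⟩ := hf
  obtain ⟨N', hN', h2⟩ := hf'
  exact ⟨N ⊓ N', h.inf_mem N hN N' hN', fun s hs n hn hnH => by
    simp only [h1 s hs n hn.1 hnH, h2 s hs n hn.2 hnH]⟩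

theorem TFOn.congr {α : Type*} {H : Subgroup G} {f f' : G → α} (hf : S.TFOn H f)
    (he : ∀ s ∈ H, f s = f' s) : S.TFOn H f' := by
  obtain ⟨N, hN, h1⟩ := hf
  exact ⟨N, hN, fun s hs n hn hnH => by
    rw [← he s hs, ← he (s * n) (H.mul_mem hs hnH), h1 s hs n hn hnH]⟩

theorem TF2.on {α : Type*} {c : G → G → α} (hc : S.TF2 c) (H : Subgroup G) : S.TF2On H c := by
  obtain ⟨N, hN, h⟩ := hc
  exact ⟨N, hN, fun s _ t _ n hn _ m hm _ => h s t n hn m hm⟩

theorem Coc2.on {c : G → G → ZMod l} (hc : S.Coc2 c) (v : Pl) : S.Coc2On v c :=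
  ⟨TF2.on hc.1 _, fun s _ t _ w _ => hc.2 s t w⟩

/-- The twisted action on `V[lam^j]` is `NN`-finite. -/
theorem act_tf (h : S.Ok) (hchi : S.HomG chi) (j : ℕ) :
    ∃ N ∈ S.NN, ∀ s, ∀ n ∈ N, ∀ Q : V, S.lam ^ j • Q = 0 → S.tw chi (s * n) Q = S.tw chi s Q := by
  obtain ⟨N, hN, h1⟩ := hchi.1
  obtain ⟨N', hN', h2⟩ := h.act_fin j
  refine ⟨N ⊓ N', h.inf_mem N hN N' hN', fun s n hn Q hQ => ?_⟩
  simp only [tw]
  rw [h1 s n hn.1, mul_smul, h2 n hn.2 Q hQ]

theorem dl_tf (h : S.Ok) (hchi : S.HomG chi) (Q : V) : S.TF (S.dl chi Q) := by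
  obtain ⟨j, hj⟩ := h.tors Q
  obtain ⟨N, hN, h1⟩ := act_tf h hchi j
  exact ⟨N, hN, fun s n hn => by rw [dl, dl, h1 s n hn Q hj]⟩

theorem dl_cocD (h : S.Ok) (hchi : S.HomG chi) (Q : V) (v : Pl) :
    S.CocD chi v (S.dl chi Q) :=
  ⟨(dl_tf h hchi Q).on _, fun s _ t _ => dl_mul h hchi.2 Q s t⟩

/-- `V[lam]`-valued means `V1`-valued. -/
theorem exists_V1 (h : S.Ok) {c : G → V} (hc : ∀ s, S.lam • c s = 0) :
    ∃ c1 : G → V1, ∀ s, S.iota (c1 s) = c s :=
  ⟨fun s => (h.iota_range (c s) (hc s)).choose, fun s => (h.iota_range (c s) (hc s)).choose_spec⟩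

/-- The same on a subgroup. -/
theorem exists_V1_on (h : S.Ok) {H : Subgroup G} {c : G → V} (hc : ∀ s ∈ H, S.lam • c s = 0) :
    ∃ c1 : G → V1, ∀ s ∈ H, S.iota (c1 s) = c s := by
  classical
  refine ⟨fun s => if hs : s ∈ H then (h.iota_range (c s) (hc s hs)).choose else 0, fun s hs => ?_⟩
  simp only [hs, dite_true]
  exact (h.iota_range (c s) (hc s hs)).choose_spec

end Sys

end Pool.Agent.SmL
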